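import Mathlib

/-!
# Convexity of the dimensions of the graded pieces of an ideal of plane forms
-/

set_option autoImplicit false

namespace Pool.Agent.L0h10.FP

open MvPolynomial

variable {k : Type*} [Field k]

/-- the restriction to the line `z = 0` -/
noncomputable def rho : MvPolynomial (Fin 3) k →ₐ[k] MvPolynomial (Fin 3) k :=
  aeval ![X 0, X 1, 0]

theorem rho_zero : (rho (X 0) : MvPolynomial (Fin 3) k) = X 0 := by simp [rho]
theorem rho_one : (rho (X 1) : MvPolynomial (Fin 3) k) = X 1 := by simp [rho]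
theorem rho_two : (rho (X 2) : MvPolynomial (Fin 3) k) = 0 := by simp [rho]

theorem dvd_sub_rho (f : MvPolynomial (Fin 3) k) : X 2 ∣ f - rho f := by
  induction f using MvPolynomial.induction_on with
  | C a => simp [rho]
  | add p q hp hq =>
    have e : p + q - rho (p + q) = (p - rho p) + (q - rho q) := by rw [map_add]; ring
    rw [e]
    exact dvd_add hp hq
  | mul_X p i hp =>
    have e : p * X i - rho (p * X i) = (p - rho p) * X i + rho p * (X i - rho (X i)) := by
      rw [map_mul]; ring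
    rw [e]
    refine dvd_add (hp.mul_right _) (Dvd.dvd.mul_left ?_ _)
    fin_cases i
    · show X 2 ∣ X 0 - rho (X 0)
      rw [rho_zero, sub_self]
      exact dvd_zero _
    · show X 2 ∣ X 1 - rho (X 1)
      rw [rho_one, sub_self]
      exact dvd_zero _
    · show X 2 ∣ X 2 - rho (X 2)
      rw [rho_two, sub_zero]

theorem hom_of_mul {i : Fin 3} {g : MvPolynomial (Fin 3) k} {e : ℕ}
    (h : (X i * g).IsHomogeneous (e + 1)) : g.IsHomogeneous e := by
  intro s hs
  have h1 : coeff (Finsupp.single i 1 + s) (X i * g) ≠ 0 := by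
    rwa [coeff_X_mul]
  have h2 := h h1
  rw [map_add, Finsupp.weight_single] at h2
  simp only [Pi.one_apply, smul_eq_mul, mul_one] at h2
  omega

/-- the ideal's pieces -/
noncomputable def piece (I : Ideal (MvPolynomial (Fin 3) k)) (d : ℕ) :
    Submodule k (MvPolynomial (Fin 3) k) :=
  homogeneousSubmodule (Fin 3) k d ⊓ I.restrictScalars k

instance piece_fin (I : Ideal (MvPolynomial (Fin 3) k)) (d : ℕ) : Module.Finite k (piece I d) := by
  have h : Module.Finite k ↥(homogeneousSubmodule (Fin 3) k d) :=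
    Module.Finite.iff_fg.2 (homogeneousSubmodule_fg _ _ d)
  exact Submodule.finiteDimensional_of_le (inf_le_left : piece I d ≤ _)

/-- multiplication by a variable -/
noncomputable def mul (i : Fin 3) : MvPolynomial (Fin 3) k →ₗ[k] MvPolynomial (Fin 3) k :=
  LinearMap.mulLeft k (X i)

theorem mul_inj (i : Fin 3) : Function.Injective (mul (k := k) i) := by
  intro a b hab
  exact mul_left_cancel₀ (X_ne_zero i) hab

theorem map_le (I : Ideal (MvPolynomial (Fin 3) k)) (d : ℕ) (i : Fin 3) :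
    (piece I d).map (mul i) ≤ piece I (d + 1) := by
  rintro _ ⟨f, ⟨hf1, hf2⟩, rfl⟩
  refine ⟨?_, I.mul_mem_left _ hf2⟩
  have h := (isHomogeneous_X k i).mul ((mem_homogeneousSubmodule d f).1 hf1)
  rw [add_comm] at h
  exact (mem_homogeneousSubmodule (d + 1) _).2 h

theorem finrank_map (A : Submodule k (MvPolynomial (Fin 3) k)) (i : Fin 3) :
    Module.finrank k (A.map (mul i)) = Module.finrank k A :=
  (LinearEquiv.finrank_eq (Submodule.equivMapOfInjective (mul i) (mul_inj i) A)).symm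

theorem not_dvd (n : ℕ) : ¬ (X 0 : MvPolynomial (Fin 3) k) ∣ X 1 ^ n := by
  intro h
  have h1 := ((X_prime : Prime (X (0 : Fin 3) : MvPolynomial (Fin 3) k))).dvd_of_dvd_pow h
  rw [X_dvd_X] at h1
  exact absurd h1 (by decide)

/-- **Convexity.** -/
theorem convex (I : Ideal (MvPolynomial (Fin 3) k)) (hI : ∀ f, X 2 * f ∈ I → f ∈ I) (e : ℕ)
    (hlt : Module.finrank k (piece I e) < Module.finrank k (piece I (e + 1))) :
    2 * Module.finrank k (piece I (e + 1)) + 1 ≤
      Module.finrank k (piece I (e + 2)) + Module.finrank k (piece I e) := by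
  classical
  obtain ⟨A, hA⟩ : ∃ A, A = piece I (e + 1) := ⟨_, rfl⟩
  obtain ⟨B, hB⟩ : ∃ B, B = piece I e := ⟨_, rfl⟩
  obtain ⟨C', hC⟩ : ∃ C', C' = piece I (e + 2) := ⟨_, rfl⟩
  have hfA : Module.Finite k A := by rw [hA]; infer_instance
  have hfB : Module.Finite k B := by rw [hB]; infer_instance
  have hfC : Module.Finite k C' := by rw [hC]; infer_instance
  have hxC : A.map (mul 0) ≤ C' := by rw [hA, hC]; exact map_le I (e + 1) 0
  have hyC : A.map (mul 1) ≤ C' := by rw [hA, hC]; exact map_le I (e + 1) 1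
  have hzC : A.map (mul 2) ≤ C' := by rw [hA, hC]; exact map_le I (e + 1) 2
  have hzB : B.map (mul 2) ≤ A := by rw [hA, hB]; exact map_le I e 2
  -- a form in `A` divisible by `z`
  have hdiv : ∀ f ∈ A, X 2 ∣ f → f ∈ B.map (mul 2) := by
    rintro f hf ⟨g, rfl⟩
    rw [hA] at hf
    refine ⟨g, ?_, rfl⟩
    rw [hB]
    exact ⟨(mem_homogeneousSubmodule e g).2 (hom_of_mul ((mem_homogeneousSubmodule (e + 1) _).1 hf.1)),
      hI g hf.2⟩
  have hprime := (X_prime : Prime (X (2 : Fin 3) : MvPolynomial (Fin 3) k))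
  have hinf : A.map (mul 2) ⊓ A.map (mul 0) ≤ (B.map (mul 2)).map (mul 0) := by
    rintro f ⟨⟨a, ha, rfl⟩, ⟨b, hb, hab⟩⟩
    refine ⟨b, hdiv b hb ?_, hab⟩
    have h1 : (X 2 : MvPolynomial (Fin 3) k) ∣ X 0 * b := ⟨a, hab⟩
    rcases hprime.dvd_or_dvd h1 with h | h
    · rw [X_dvd_X] at h
      exact absurd h (by decide)
    · exact h
  have hfx : Module.Finite k (A.map (mul 0)) := Module.Finite.map _ _
  have hfz : Module.Finite k (A.map (mul 2)) := Module.Finite.map _ _
  have hfB2 : Module.Finite k (B.map (mul 2)) := Module.Finite.map _ _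
  have hfB3 : Module.Finite k ((B.map (mul 2)).map (mul 0)) := Module.Finite.map _ _
  have hsum := Submodule.finrank_sup_add_finrank_inf_eq (A.map (mul 2)) (A.map (mul 0))
  rw [finrank_map, finrank_map] at hsum
  have hinf2 := Submodule.finrank_mono hinf
  rw [finrank_map, finrank_map] at hinf2
  -- the third variable
  have hstrict : A.map (mul 2) ⊔ A.map (mul 0) < C' := by
    refine lt_of_le_of_ne (sup_le hzC hxC) fun heq => ?_
    have hstep : ∀ f ∈ A, ∃ g ∈ A, X 1 * rho f = X 0 * rho g := by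
      intro f hf
      have h1 : X 1 * f ∈ A.map (mul 2) ⊔ A.map (mul 0) := by
        rw [heq]
        exact hyC ⟨f, hf, rfl⟩
      obtain ⟨_, ⟨a, ha, rfl⟩, _, ⟨b, hb, rfl⟩, hab⟩ := Submodule.mem_sup.1 h1
      refine ⟨b, hb, ?_⟩
      have h2 : X 2 * a + X 0 * b = X 1 * f := hab
      have h3 := congrArg (rho (k := k)) h2
      rw [map_add, map_mul, map_mul, map_mul, rho_zero, rho_one, rho_two, zero_mul, zero_add] at h3
      exact h3.symm
    have hpow : ∀ (n : ℕ) (f : MvPolynomial (Fin 3) k), f ∈ A →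
        ∃ g ∈ A, X 1 ^ n * rho f = X 0 ^ n * rho g := by
      intro n
      induction n with
      | zero =>
        intro f hf
        exact ⟨f, hf, by simp⟩
      | succ n ih =>
        intro f hf
        obtain ⟨g, hg, h1⟩ := ih f hf
        obtain ⟨g', hg', h2⟩ := hstep g hg
        refine ⟨g', hg', ?_⟩
        calc X 1 ^ (n + 1) * rho f = X 1 * (X 1 ^ n * rho f) := by ring
          _ = X 0 ^ n * (X 1 * rho g) := by rw [h1]; ring
          _ = X 0 ^ (n + 1) * rho g' := by rw [h2]; ring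
    -- a form not divisible by `z`
    have hex : ∃ f ∈ A, f ∉ B.map (mul 2) := by
      by_contra hcon
      push Not at hcon
      have h1 := Submodule.finrank_mono (show A ≤ B.map (mul 2) from hcon)
      rw [finrank_map, hA, hB] at h1
      omega
    obtain ⟨f, hf, hfn⟩ := hex
    have hne : rho f ≠ 0 := by
      intro h0
      apply hfn
      apply hdiv f hf
      have h1 := dvd_sub_rho f
      rwa [h0, sub_zero] at h1
    obtain ⟨n, hn⟩ : ∃ n, n = (rho f).totalDegree + 1 := ⟨_, rfl⟩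
    obtain ⟨g, hg, h1⟩ := hpow n f hf
    have h2 : (X 0 : MvPolynomial (Fin 3) k) ^ n ∣ rho f :=
      ((X_prime : Prime (X (0 : Fin 3) : MvPolynomial (Fin 3) k))).pow_dvd_of_dvd_mul_left n (not_dvd n) ⟨rho g, h1⟩
    obtain ⟨q, hq⟩ := h2
    have hq0 : q ≠ 0 := by
      rintro rfl
      rw [mul_zero] at hq
      exact hne hq
    have h3 := MvPolynomial.totalDegree_mul_of_isDomain (pow_ne_zero n (X_ne_zero (R := k) (0 : Fin 3))) hq0
    rw [← hq, totalDegree_X_pow] at h3
    omega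
  have h4 := Submodule.finrank_lt_finrank_of_lt hstrict
  rw [← hA, ← hB, ← hC]
  omega

theorem piece_zero (I : Ideal (MvPolynomial (Fin 3) k)) : Module.finrank k (piece I 0) ≤ 1 := by
  have h : piece I 0 ≤ Submodule.span k {(1 : MvPolynomial (Fin 3) k)} := by
    intro f hf
    have h1 := (mem_homogeneousSubmodule 0 f).1 hf.1
    have h2 : f = C (coeff 0 f) := by
      rw [← totalDegree_eq_zero_iff_eq_C]
      exact Nat.le_zero.1 h1.totalDegree_le
    rw [h2, Submodule.mem_span_singleton]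
    exact ⟨coeff 0 f, by rw [MvPolynomial.smul_eq_C_mul, mul_one]⟩
  have h1 := Submodule.finrank_mono h
  rwa [finrank_span_singleton one_ne_zero] at h1

theorem piece_mono (I : Ideal (MvPolynomial (Fin 3) k)) (d : ℕ) :
    Module.finrank k (piece I d) ≤ Module.finrank k (piece I (d + 1)) := by
  have h := Submodule.finrank_mono (map_le I d 0)
  rwa [finrank_map] at h

/-- The arithmetic. -/
theorem arith {r m d₀ : ℕ} (hr : 10 ≤ r) {v : ℕ → ℕ}
    (h1 : ∀ d, d ≠ d₀ → v d = (d + 2).choose 2 - r * (m + 1).choose 2) (h0 : v 0 ≤ 1)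
    (hm : ∀ d, v d ≤ v (d + 1)) (hc : ∀ e, v e < v (e + 1) → 2 * v (e + 1) + 1 ≤ v (e + 2) + v e)
    (d : ℕ) : 2 * (v d : ℤ) ≤ 2 * max 0 (((d + 2).choose 2 : ℤ) - r * (m + 1).choose 2) +
      max 0 ((d : ℤ) + 1 - |((d + 2).choose 2 : ℤ) - r * (m + 1).choose 2|) := by
  have hcast : ((r : ℤ) * ((m + 1).choose 2 : ℕ)) = ((r * (m + 1).choose 2 : ℕ) : ℤ) := by push_cast; ring
  rw [hcast]
  have hn : (m + 1).choose 2 = 0 ∨ 10 ≤ r * (m + 1).choose 2 := by
    rcases Nat.eq_zero_or_pos ((m + 1).choose 2) with h | h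
    · exact Or.inl h
    · right
      calc 10 = 10 * 1 := rfl
        _ ≤ r * (m + 1).choose 2 := Nat.mul_le_mul hr h
  have hn' : r * (m + 1).choose 2 = 0 ∨ 10 ≤ r * (m + 1).choose 2 := by
    rcases hn with h | h
    · left; rw [h, mul_zero]
    · exact Or.inr h
  obtain ⟨n, hnd⟩ : ∃ n, n = r * (m + 1).choose 2 := ⟨_, rfl⟩
  rw [← hnd] at hn' ⊢
  have h1' : ∀ d, d ≠ d₀ → v d = (d + 2).choose 2 - n := by rw [hnd]; exact h1
  by_cases hd : d = d₀
  · subst hd
    rcases Nat.eq_zero_or_pos d with hz | hz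
    · subst hz
      have e1 : (0 + 2).choose 2 = 1 := rfl
      have h2 := h1' 1 one_ne_zero
      have e2 : (1 + 2).choose 2 = 3 := rfl
      have h3 : v 0 ≤ v 1 := hm 0
      rw [e2] at h2
      rw [e1]
      rcases abs_cases (((1 : ℕ) : ℤ) - (n : ℤ)) with ⟨h4, h5⟩ | ⟨h4, h5⟩ <;> rw [h4] <;> omega
    · obtain ⟨e, rfl⟩ : ∃ e, d = e + 1 := ⟨d - 1, by omega⟩
      have c1 : (e + 1 + 2).choose 2 = (e + 2).choose 2 + (e + 2) := by
        have h := Nat.choose_succ_succ' (e + 2) 1
        rw [Nat.choose_one_right] at h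
        show (e + 2 + 1).choose (1 + 1) = (e + 2).choose (1 + 1) + (e + 2)
        omega
      have c2 : (e + 2 + 2).choose 2 = (e + 1 + 2).choose 2 + (e + 3) := by
        have h := Nat.choose_succ_succ' (e + 1 + 2) 1
        rw [Nat.choose_one_right] at h
        show (e + 1 + 2 + 1).choose (1 + 1) = (e + 1 + 2).choose (1 + 1) + (e + 3)
        omega
      have h2 := h1' e (by omega)
      have h3 := h1' (e + 2) (by omega)
      obtain ⟨x, hx⟩ : ∃ x, x = (e + 2).choose 2 := ⟨_, rfl⟩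
      rw [← hx] at h2 c1
      rw [c2, c1] at h3
      rw [c1]
      have h4 := hc e
      rcases abs_cases (((x + (e + 2) : ℕ) : ℤ) - (n : ℤ)) with ⟨h5, h6⟩ | ⟨h5, h6⟩ <;> rw [h5] <;> omega
  · have h2 := h1' d hd
    have h3 := le_max_left (0 : ℤ) ((d : ℤ) + 1 - |((d + 2).choose 2 : ℤ) - (n : ℤ)|)
    omega

/-- The lower bound. -/
theorem arith_low {r m d₀ : ℕ} {v : ℕ → ℕ}
    (h1 : ∀ d, d ≠ d₀ → v d = (d + 2).choose 2 - r * (m + 1).choose 2)
    (hc : ∀ e, v e < v (e + 1) → 2 * v (e + 1) + 1 ≤ v (e + 2) + v e)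
    (d : ℕ) : ((d + 2).choose 2 : ℤ) - r * (m + 1).choose 2 ≤ (v d : ℤ) := by
  have hcast : ((r : ℤ) * ((m + 1).choose 2 : ℕ)) = ((r * (m + 1).choose 2 : ℕ) : ℤ) := by push_cast; ring
  rw [hcast]
  obtain ⟨n, hnd⟩ : ∃ n, n = r * (m + 1).choose 2 := ⟨_, rfl⟩
  rw [← hnd]
  have h1' : ∀ d, d ≠ d₀ → v d = (d + 2).choose 2 - n := by rw [hnd]; exact h1
  by_cases hd : d = d₀
  · subst hd
    have c1 : (d + 1 + 2).choose 2 = (d + 2).choose 2 + (d + 2) := by
      have h := Nat.choose_succ_succ' (d + 2) 1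
      rw [Nat.choose_one_right] at h
      show (d + 2 + 1).choose (1 + 1) = (d + 2).choose (1 + 1) + (d + 2)
      omega
    have c2 : (d + 2 + 2).choose 2 = (d + 1 + 2).choose 2 + (d + 3) := by
      have h := Nat.choose_succ_succ' (d + 1 + 2) 1
      rw [Nat.choose_one_right] at h
      show (d + 1 + 2 + 1).choose (1 + 1) = (d + 1 + 2).choose (1 + 1) + (d + 3)
      omega
    have h2 := h1' (d + 1) (by omega)
    have h3 := h1' (d + 2) (by omega)
    have h4 := hc d
    obtain ⟨x, hx⟩ : ∃ x, x = (d + 2).choose 2 := ⟨_, rfl⟩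
    rw [← hx] at c1
    rw [c1] at h2
    rw [c2, c1] at h3
    rw [← hx]
    omega
  · have h2 := h1' d hd
    omega

end Pool.Agent.L0h10.FP
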