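import Pool.Agent.H852.NB.Equi

/-!
# Terms of progressions near integers modulo one, uniformly

`count_arc`: for a natural number `r` which is not a square few members `t < H` satisfy
`a ≤ D - √r t - β ≤ b` for an integer `D`; the error is small as soon as `H` is a multiple of `√r`.
`iso_count`: few `r < R` are such that a small multiple of `√r` is near an integer.
-/

set_option autoImplicit false

namespace Pool.Agent.L0h10.FP

open Pool.Agent.H852.NB

/-- A reduced fraction near `√r`, its denominator is not small. -/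
theorem exists_red {r : ℕ} (hr : ¬ IsSquare r) {n : ℕ} (hn : 0 < n) :
    ∃ (q : ℕ) (p : ℤ), 0 < q ∧ q ≤ n ∧ IsCoprime (q : ℤ) p ∧
      |(q : ℝ) * Real.sqrt r - p| ≤ 1 / ((n : ℝ) + 1) ∧ ((n : ℝ) + 1) ≤ 3 * Real.sqrt r * q := by
  have hr1 : 1 ≤ r := by
    rcases Nat.eq_zero_or_pos r with h | h
    · exact absurd ⟨0, by simp [h]⟩ hr
    · exact h
  obtain ⟨z, hz1, hz2⟩ := Real.exists_rat_abs_sub_le_and_den_le (Real.sqrt r) hn
  have hnR : (1 : ℝ) ≤ n := by exact_mod_cast hn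
  have hrR : (1 : ℝ) ≤ r := by exact_mod_cast hr1
  have hs1 : 1 ≤ Real.sqrt r := Real.one_le_sqrt.2 hrR
  have hss : Real.sqrt r * Real.sqrt r = r := Real.mul_self_sqrt (by linarith)
  have hq0 : 0 < z.den := z.den_pos
  have hqR : (1 : ℝ) ≤ z.den := by exact_mod_cast hq0
  have hzc : ((z : ℝ)) * z.den = z.num := by
    have := Rat.mul_den_eq_num z
    exact_mod_cast this
  obtain ⟨q, hq⟩ : ∃ q : ℕ, q = z.den := ⟨_, rfl⟩
  obtain ⟨p, hp⟩ : ∃ p : ℤ, p = z.num := ⟨_, rfl⟩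
  have hcop : IsCoprime (q : ℤ) p := by
    rw [hq, hp, Int.isCoprime_iff_gcd_eq_one]
    have := z.reduced
    rw [Nat.coprime_comm] at this
    simpa [Int.gcd, Nat.Coprime] using this
  rw [← hq] at hz1 hz2 hq0 hqR hzc
  rw [← hp] at hzc
  obtain ⟨s, hs⟩ : ∃ s, s = Real.sqrt r := ⟨_, rfl⟩
  rw [← hs] at hz1 hs1 hss ⊢
  have hdist : |(q : ℝ) * s - p| ≤ 1 / ((n : ℝ) + 1) := by
    have h1 : (q : ℝ) * s - p = q * (s - z) := by rw [← hzc]; ring
    rw [h1, abs_mul, abs_of_pos (by linarith : (0 : ℝ) < q)]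
    calc (q : ℝ) * |s - z| ≤ q * (1 / (((n : ℝ) + 1) * q)) :=
          mul_le_mul_of_nonneg_left hz1 (by linarith)
      _ = 1 / ((n : ℝ) + 1) := by field_simp
  refine ⟨q, p, hq0, hz2, hcop, hdist, ?_⟩
  have hhalf : |(q : ℝ) * s - p| ≤ 1 / 2 := hdist.trans (one_div_le_one_div_of_le (by norm_num) (by linarith))
  have habs' := abs_le.1 hhalf
  have hqs : 1 ≤ q * s := by nlinarith
  have hirr : Irrational s := by rw [hs]; exact irrational_sqrt_natCast_iff.2 hr
  have hne : (q : ℝ) * s - p ≠ 0 := by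
    have h1 : Irrational ((q : ℝ) * s) := hirr.natCast_mul hq0.ne'
    intro h0
    exact (h1.ne_int p) (sub_eq_zero.1 h0)
  have hprod : ((q : ℝ) * s - p) * (q * s + p) = ((r * q ^ 2 - p ^ 2 : ℤ) : ℝ) := by
    push_cast
    linear_combination (q : ℝ) ^ 2 * hss
  have hpos : 0 < (q : ℝ) * s + p := by linarith [habs'.2]
  have hint : (r * q ^ 2 - p ^ 2 : ℤ) ≠ 0 := by
    intro h0
    rw [h0, Int.cast_zero] at hprod
    rcases mul_eq_zero.1 hprod with h | h
    · exact hne h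
    · exact hpos.ne' h
  have h1 : (1 : ℝ) ≤ |((r * q ^ 2 - p ^ 2 : ℤ) : ℝ)| := by
    have h2 := Int.one_le_abs hint
    have h3 : ((1 : ℤ) : ℝ) ≤ ((|(r * q ^ 2 - p ^ 2 : ℤ)| : ℤ) : ℝ) := by exact_mod_cast h2
    rw [Int.cast_one, Int.cast_abs] at h3
    exact h3
  rw [← hprod, abs_mul, abs_of_pos hpos] at h1
  have h2 : (q : ℝ) * s + p ≤ 3 * (q * s) := by linarith [habs'.1]
  have h3 : |(q : ℝ) * s - p| * (q * s + p) ≤ 1 / ((n : ℝ) + 1) * (3 * (q * s)) :=
    mul_le_mul hdist h2 hpos.le (by positivity)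
  have h4 : 1 ≤ 1 / ((n : ℝ) + 1) * (3 * (q * s)) := h1.trans h3
  have h5 : 1 / ((n : ℝ) + 1) * (3 * (q * s)) = (3 * s * q) / ((n : ℝ) + 1) := by ring
  rw [h5, le_div_iff₀ (by linarith)] at h4
  linarith

/-- One block. -/
theorem block {s β a b θ : ℝ} {q : ℕ} {p : ℤ} (hq : 0 < q) (hcop : IsCoprime (q : ℤ) p)
    (hab : a ≤ b) (hθ : (q : ℝ) * s - p = θ) {S : Finset ℕ} {j : ℕ} (hj : ∀ t ∈ S, t / q = j)
    (hS : ∀ t ∈ S, ∃ D : ℤ, s * t + β + a ≤ D ∧ (D : ℝ) ≤ s * t + β + b) :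
    (S.card : ℝ) ≤ q * (b - a) + q * |θ| + 1 := by
  classical
  choose! D hD1 hD2 using hS
  have hqR : (0 : ℝ) < q := by exact_mod_cast hq
  have hlt : ∀ t ∈ S, ∀ t' ∈ S, |((t : ℝ) - t')| ≤ q := by
    intro t ht t' ht'
    have h1 := Nat.mod_add_div t q
    have h2 := Nat.mod_add_div t' q
    rw [hj t ht] at h1
    rw [hj t' ht'] at h2
    have h3 := Nat.mod_lt t hq
    have h4 := Nat.mod_lt t' hq
    rw [abs_le]
    constructor
    · have : (t' : ℝ) ≤ t + q := by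
        have : t' ≤ t + q := by omega
        exact_mod_cast this
      linarith
    · have : (t : ℝ) ≤ t' + q := by
        have : t ≤ t' + q := by omega
        exact_mod_cast this
      linarith
  have h := card_le_int (S := S) (f := fun t : ℕ => (q : ℤ) * D t - p * t)
    (l := q * (b - a) + q * |θ|) ?_ ?_ ?_
  · exact h
  · intro t ht t' ht' htt
    have ht1 : t ∈ S := ht
    have ht2 : t' ∈ S := ht'
    have e : (q : ℤ) * D t - p * t = (q : ℤ) * D t' - p * t' := htt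
    have hdvd : (q : ℤ) ∣ p * ((t : ℤ) - t') := ⟨D t - D t', by linarith⟩
    have hdvd2 : (q : ℤ) ∣ (t : ℤ) - t' := hcop.dvd_of_dvd_mul_left hdvd
    have h1 := Nat.mod_add_div t q
    have h2 := Nat.mod_add_div t' q
    rw [hj t ht1] at h1
    rw [hj t' ht2] at h2
    have h3 : t % q = t' % q := by
      have h5 : (t' : ℤ) ≡ t [ZMOD q] := (Int.modEq_iff_dvd).2 hdvd2
      have h6 := (Int.natCast_modEq_iff).1 h5
      exact h6.symm
    omega
  · have := abs_nonneg θ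
    have h7 : 0 ≤ (q : ℝ) * (b - a) := mul_nonneg hqR.le (by linarith)
    positivity
  · intro t ht t' ht'
    have k1 := hD2 t ht
    have k2 := hD1 t' ht'
    have k3 := hlt t ht t' ht'
    push_cast
    have e1 : (q : ℝ) * D t - p * t - (q * D t' - p * t') =
        q * ((D t : ℝ) - s * t - β) - q * ((D t' : ℝ) - s * t' - β) + θ * (t - t') := by
      rw [← hθ]; ring
    rw [e1]
    have k4 : q * ((D t : ℝ) - s * t - β) ≤ q * b := mul_le_mul_of_nonneg_left (by linarith) hqR.le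
    have k5 : q * a ≤ q * ((D t' : ℝ) - s * t' - β) := mul_le_mul_of_nonneg_left (by linarith) hqR.le
    have k6 : θ * ((t : ℝ) - t') ≤ q * |θ| := by
      refine (le_abs_self _).trans ?_
      rw [abs_mul, mul_comm]
      exact mul_le_mul_of_nonneg_right k3 (abs_nonneg _)
    linarith

/-- **Terms of a progression in an arc, uniformly.** -/
theorem count_arc {r : ℕ} (hr : ¬ IsSquare r) {β a b δ : ℝ} (hab : a ≤ b) (hδ0 : 0 < δ) (hδ1 : δ ≤ 1)
    {H : ℕ} (hH : 30 * Real.sqrt r ≤ H * δ ^ 2) {B : Finset ℕ} (hB : ∀ t ∈ B, t < H)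
    (hbad : ∀ t ∈ B, ∃ D : ℤ, Real.sqrt r * t + β + a ≤ D ∧ (D : ℝ) ≤ Real.sqrt r * t + β + b) :
    (B.card : ℝ) ≤ (b - a + δ) * H := by
  classical
  have hH0 : (0 : ℝ) ≤ H := Nat.cast_nonneg H
  rcases le_or_gt 1 (b - a) with hl | hl
  · have h1 : B ⊆ Finset.range H := fun t ht => Finset.mem_range.2 (hB t ht)
    have h2 := Finset.card_le_card h1
    rw [Finset.card_range] at h2
    have h3 : (B.card : ℝ) ≤ H := by exact_mod_cast h2
    nlinarith
  have hr1 : 1 ≤ r := by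
    rcases Nat.eq_zero_or_pos r with h | h
    · exact absurd ⟨0, by simp [h]⟩ hr
    · exact h
  have hs1 : 1 ≤ Real.sqrt r := Real.one_le_sqrt.2 (by exact_mod_cast hr1)
  obtain ⟨n, hn⟩ : ∃ n : ℕ, n = ⌈12 * Real.sqrt r / δ⌉₊ := ⟨_, rfl⟩
  have hpos : 0 < 12 * Real.sqrt r / δ := by positivity
  have hn1 : 12 * Real.sqrt r / δ ≤ n := by rw [hn]; exact Nat.le_ceil _
  have hn2 : (n : ℝ) < 12 * Real.sqrt r / δ + 1 := by rw [hn]; exact Nat.ceil_lt_add_one hpos.le
  have hn0 : 0 < n := by rw [hn]; exact Nat.ceil_pos.2 hpos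
  obtain ⟨q, p, hq0, hqn, hcop, hd, hq1⟩ := exists_red hr hn0
  have hqR : (0 : ℝ) < q := by exact_mod_cast hq0
  have hqnR : (q : ℝ) ≤ n := by exact_mod_cast hqn
  obtain ⟨s, hs⟩ : ∃ s, s = Real.sqrt r := ⟨_, rfl⟩
  rw [← hs] at hH hbad hs1 hn1 hn2 hd hq1
  have hs0 : 0 < s := by linarith
  -- the blocks
  have hfib : ∀ x ∈ B.image (fun t => t / q), (B.filter fun t => t / q = x).card ≤ ⌊(q : ℝ) * (b - a) + 2⌋₊ := by
    intro j _
    apply Nat.le_floor
    have h1 := block (S := B.filter fun t => t / q = j) hq0 hcop hab (θ := (q : ℝ) * s - p) rfl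
      (j := j) (fun t ht => (Finset.mem_filter.1 ht).2) (fun t ht => hbad t (Finset.mem_filter.1 ht).1)
    have h2 : (q : ℝ) * |(q : ℝ) * s - p| ≤ 1 := by
      calc (q : ℝ) * |(q : ℝ) * s - p| ≤ n * (1 / ((n : ℝ) + 1)) :=
            mul_le_mul hqnR hd (abs_nonneg _) (by positivity)
        _ ≤ 1 := by
          rw [mul_one_div, div_le_one (by positivity)]
          linarith
    linarith
  have h1 := Finset.card_le_mul_card_image B _ hfib
  have h2 : (B.image (fun t => t / q)).card ≤ H / q + 1 := by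
    have h4 : B.image (fun t => t / q) ⊆ Finset.range (H / q + 1) := by
      intro c hc
      obtain ⟨t, ht, rfl⟩ := Finset.mem_image.1 hc
      exact Finset.mem_range.2 (Nat.lt_succ_of_le (Nat.div_le_div_right (hB t ht).le))
    have h5 := Finset.card_le_card h4
    rwa [Finset.card_range] at h5
  have h3 : (B.card : ℝ) ≤ (q * (b - a) + 2) * (H / q + 1) := by
    have h4 : (B.card : ℝ) ≤ ((⌊(q : ℝ) * (b - a) + 2⌋₊ * (H / q + 1) : ℕ) : ℝ) := by
      exact_mod_cast h1.trans (Nat.mul_le_mul_left _ h2)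
    refine h4.trans ?_
    push_cast
    have hq2 : 0 ≤ (q : ℝ) * (b - a) := mul_nonneg hqR.le (by linarith)
    refine mul_le_mul (Nat.floor_le (by linarith)) ?_ (by positivity) (by linarith)
    have := Nat.cast_div_le (α := ℝ) (m := H) (n := q)
    linarith
  have e1 : (q * (b - a) + 2) * ((H : ℝ) / q + 1) = (b - a) * H + 2 * (H / q) + (q * (b - a) + 2) := by
    field_simp
  rw [e1] at h3
  have hqδ : 4 ≤ q * δ := by
    have h5 : 12 * s / δ ≤ 3 * s * q := by linarith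
    rw [div_le_iff₀ hδ0] at h5
    nlinarith
  have h4 : 2 * ((H : ℝ) / q) ≤ δ / 2 * H := by
    have h5 : (H : ℝ) / q ≤ δ / 4 * H := by
      rw [div_le_iff₀ hqR]
      nlinarith
    linarith
  have h5 : (q : ℝ) * (b - a) + 2 ≤ δ / 2 * H := by
    have h6 : (q : ℝ) * (b - a) ≤ q := by nlinarith
    have h7 : (q : ℝ) + 2 ≤ 15 * s / δ := by
      have h8 : (3 : ℝ) ≤ 3 * s / δ := by
        rw [le_div_iff₀ hδ0]
        nlinarith
      have h9 : 15 * s / δ = 12 * s / δ + 3 * s / δ := by ring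
      linarith
    have h8 : 15 * s / δ ≤ δ / 2 * H := by
      rw [div_le_iff₀ hδ0]
      nlinarith
    linarith
  linarith

end Pool.Agent.L0h10.FP
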