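import Pool.Agent.H852.NB.Equi

/-!
# Square roots a small multiple of which is near an integer
-/

set_option autoImplicit false

namespace Pool.Agent.L0h10.FP

open Pool.Agent.H852.NB

/-- Few `r < R` are such that `h √r` is near an integer. -/
theorem near_count {h : ℕ} (hh : 1 ≤ h) {η : ℝ} (hη0 : 0 < η) (hη1 : η ≤ 1) {R : ℕ} {S : Finset ℕ}
    (hS : ∀ r ∈ S, 1 ≤ r ∧ r < R) (hbad : ∀ r ∈ S, ∃ e : ℤ, |(h : ℝ) * Real.sqrt r - e| < η) :
    (S.card : ℝ) ≤ 16 * η * R + 2 * h * Real.sqrt R := by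
  classical
  rcases S.eq_empty_or_nonempty with h0 | h0
  · subst h0
    simp only [Finset.card_empty, Nat.cast_zero]
    positivity
  obtain ⟨r0, hr0⟩ := h0
  have hR1 : (1 : ℝ) ≤ R := by
    have := hS r0 hr0
    exact_mod_cast (by omega : 1 ≤ R)
  have hsR : 1 ≤ Real.sqrt R := Real.one_le_sqrt.2 hR1
  have hssR : Real.sqrt R * Real.sqrt R = R := Real.mul_self_sqrt (by linarith)
  obtain ⟨T, hT⟩ : ∃ T, T = Real.sqrt R := ⟨_, rfl⟩
  rw [← hT] at hsR hssR ⊢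
  have hhR : (1 : ℝ) ≤ h := by exact_mod_cast hh
  have hhT : 1 ≤ (h : ℝ) * T := by nlinarith
  choose! e he using hbad
  have hbas : ∀ r ∈ S, (1 : ℝ) ≤ Real.sqrt r ∧ Real.sqrt r ≤ T ∧ Real.sqrt r * Real.sqrt r = r ∧
      (1 : ℝ) ≤ (e r : ℝ) ∧ (e r : ℝ) ≤ 2 * (h * T) := by
    intro r hr
    obtain ⟨h1, h2⟩ := hS r hr
    have k1 : (1 : ℝ) ≤ Real.sqrt r := Real.one_le_sqrt.2 (by exact_mod_cast h1)
    have k2 : Real.sqrt r ≤ T := by
      rw [hT]
      exact Real.sqrt_le_sqrt (by exact_mod_cast h2.le)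
    have k3 := abs_lt.1 (he r hr)
    have k4 : 1 ≤ (h : ℝ) * Real.sqrt r := by nlinarith
    have k5 : (h : ℝ) * Real.sqrt r ≤ h * T := mul_le_mul_of_nonneg_left k2 (by linarith)
    refine ⟨k1, k2, Real.mul_self_sqrt (Nat.cast_nonneg r), ?_, by linarith [k3.1]⟩
    have k6 : (0 : ℝ) < e r := by linarith [k3.2]
    have k7 : 0 < e r := by exact_mod_cast k6
    exact_mod_cast (by omega : 1 ≤ e r)
  have hfib : ∀ x ∈ S.image (fun r => (e r).toNat), (S.filter fun r => (e r).toNat = x).card ≤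
      ⌊8 * η * T / h + 1⌋₊ := by
    intro x _
    apply Nat.le_floor
    refine card_le_int (f := fun r : ℕ => (r : ℤ)) (fun a _ b _ hab => Nat.cast_injective (R := ℤ) hab)
      (by positivity) fun a ha b hb => ?_
    obtain ⟨ha1, ha2⟩ := Finset.mem_filter.1 ha
    obtain ⟨hb1, hb2⟩ := Finset.mem_filter.1 hb
    obtain ⟨a1, a2, a3, a4, a5⟩ := hbas a ha1
    obtain ⟨b1, b2, b3, b4, b5⟩ := hbas b hb1
    have hee : e a = e b := by
      have q1 : (1 : ℤ) ≤ e a := by exact_mod_cast a4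
      have q2 : (1 : ℤ) ≤ e b := by exact_mod_cast b4
      omega
    have ka := (abs_lt.1 (he a ha1)).2
    have kb := (abs_lt.1 (he b hb1)).1
    rw [hee] at ka a4 a5
    obtain ⟨u, hu⟩ : ∃ u, u = Real.sqrt a := ⟨_, rfl⟩
    obtain ⟨v, hv⟩ : ∃ v, v = Real.sqrt b := ⟨_, rfl⟩
    rw [← hu] at a1 a2 a3 ka
    rw [← hv] at b1 b2 b3 kb
    obtain ⟨E, hE⟩ : ∃ E : ℝ, E = (e b : ℝ) := ⟨_, rfl⟩
    rw [← hE] at ka kb a4 a5
    show (((a : ℕ) : ℤ) : ℝ) - (((b : ℕ) : ℤ) : ℝ) ≤ _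
    rw [Int.cast_natCast, Int.cast_natCast, ← a3, ← b3]
    have hhpos : (0 : ℝ) < h := by linarith
    have c1 : (h * u) * (h * u) ≤ (E + η) * (E + η) :=
      mul_le_mul (by linarith) (by linarith) (by positivity) (by positivity)
    have c2 : (E - η) * (E - η) ≤ (h * v) * (h * v) :=
      mul_le_mul (by linarith) (by linarith) (by linarith) (by positivity)
    have c3 : (u * u - v * v) * (h * h) ≤ 4 * E * η := by nlinarith
    have c4 : 4 * E * η ≤ 8 * η * T * h := by nlinarith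
    have c5 : (u * u - v * v) * h ≤ 8 * η * T := by
      have : ((u * u - v * v) * h) * h ≤ (8 * η * T) * h := by nlinarith
      exact le_of_mul_le_mul_right this hhpos
    rw [le_div_iff₀ hhpos]
    exact c5
  have h1 := Finset.card_le_mul_card_image S _ hfib
  have h2 : ((S.image (fun r => (e r).toNat)).card : ℝ) ≤ 2 * (h * T) := by
    have h3 : S.image (fun r => (e r).toNat) ⊆ Finset.Icc 1 ⌊2 * (h * T)⌋₊ := by
      intro x hx
      obtain ⟨r, hr, rfl⟩ := Finset.mem_image.1 hx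
      obtain ⟨a1, a2, a3, a4, a5⟩ := hbas r hr
      have q1 : (1 : ℤ) ≤ e r := by exact_mod_cast a4
      rw [Finset.mem_Icc]
      refine ⟨by omega, Nat.le_floor ?_⟩
      have q2 : (((e r).toNat : ℤ) : ℝ) = e r := by
        rw [Int.toNat_of_nonneg (by omega)]
      have q3 : (((e r).toNat : ℕ) : ℝ) = e r := by exact_mod_cast q2
      rw [q3]
      exact a5
    have h4 := Finset.card_le_card h3
    rw [Nat.card_Icc, Nat.add_sub_cancel] at h4
    have h5 : ((S.image (fun r => (e r).toNat)).card : ℝ) ≤ (⌊2 * (h * T)⌋₊ : ℝ) := by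
      exact_mod_cast h4
    exact h5.trans (Nat.floor_le (by positivity))
  have h3 : (S.card : ℝ) ≤ (8 * η * T / h + 1) * (2 * (h * T)) := by
    have h4 : (S.card : ℝ) ≤ (⌊8 * η * T / h + 1⌋₊ : ℝ) * ((S.image (fun r => (e r).toNat)).card : ℝ) := by
      exact_mod_cast h1
    refine h4.trans ?_
    exact mul_le_mul (Nat.floor_le (by positivity)) h2 (by positivity) (by positivity)
  refine h3.trans (le_of_eq ?_)
  rw [← hssR]
  field_simp
  ring

/-- For 100 percent of the `r` no small multiple of `√r` is near an integer. -/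
theorem iso_count (K : ℕ) {ε : ℝ} (hε : 0 < ε) : ∃ η : ℝ, 0 < η ∧ η ≤ 1 ∧ ∀ N : ℕ,
    ∃ R₀ : ℕ, ∀ R : ℕ, R₀ ≤ R → ∀ S : Finset ℕ, (∀ r ∈ S, r < R) →
      (∀ r ∈ S, 1 ≤ r ∧ (N ≤ r → ∃ h : ℕ, 1 ≤ h ∧ h ≤ K ∧ ∃ e : ℤ, |(h : ℝ) * Real.sqrt r - e| < η)) →
      (S.card : ℝ) ≤ ε * R := by
  classical
  have hK0 : (0 : ℝ) ≤ K := Nat.cast_nonneg K
  obtain ⟨η, hη⟩ : ∃ η : ℝ, η = min 1 (ε / (64 * (K + 1))) := ⟨_, rfl⟩
  have hη0 : 0 < η := by rw [hη]; exact lt_min one_pos (by positivity)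
  have hη1 : η ≤ 1 := by rw [hη]; exact min_le_left _ _
  have hη2 : η ≤ ε / (64 * (K + 1)) := by rw [hη]; exact min_le_right _ _
  have hη3 : 64 * η * (K + 1) ≤ ε := by
    rw [le_div_iff₀ (by positivity)] at hη2
    linarith
  refine ⟨η, hη0, hη1, fun N => ?_⟩
  obtain ⟨R₀, hR₀⟩ := exists_nat_ge (max ((8 * (K : ℝ) ^ 2 / ε) ^ 2) (4 * N / ε))
  refine ⟨R₀, fun R hR S hSR hS => ?_⟩
  have hR0 : (R₀ : ℝ) ≤ R := by exact_mod_cast hR
  have hRa : (8 * (K : ℝ) ^ 2 / ε) ^ 2 ≤ R := (le_max_left _ _).trans (hR₀.trans hR0)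
  have hRb : 4 * N / ε ≤ (R : ℝ) := (le_max_right _ _).trans (hR₀.trans hR0)
  have hRc : (N : ℝ) ≤ ε / 4 * R := by
    rw [div_le_iff₀ hε] at hRb
    linarith
  have hT0 : 0 ≤ Real.sqrt R := Real.sqrt_nonneg _
  have hTT : Real.sqrt R * Real.sqrt R = R := Real.mul_self_sqrt (Nat.cast_nonneg R)
  have hTa : 8 * (K : ℝ) ^ 2 / ε ≤ Real.sqrt R := Real.le_sqrt_of_sq_le hRa
  have hTb : 8 * (K : ℝ) ^ 2 ≤ Real.sqrt R * ε := by rwa [div_le_iff₀ hε] at hTa
  have hTc : 2 * (K : ℝ) ^ 2 * Real.sqrt R ≤ ε / 4 * R := by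
    have e1 : ε / 4 * (R : ℝ) = ε / 4 * (Real.sqrt R * Real.sqrt R) := by rw [hTT]
    rw [e1]
    have e2 := mul_le_mul_of_nonneg_right hTb hT0
    linarith
  have hsub : S ⊆ Finset.range N ∪ (Finset.Icc 1 K).biUnion fun h =>
      S.filter fun r : ℕ => ∃ e : ℤ, |(h : ℝ) * Real.sqrt r - e| < η := by
    intro r hr
    rw [Finset.mem_union, Finset.mem_range, Finset.mem_biUnion]
    rcases lt_or_ge r N with h | h
    · exact Or.inl h
    · right
      obtain ⟨k, hk1, hk2, hk3⟩ := (hS r hr).2 h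
      exact ⟨k, Finset.mem_Icc.2 ⟨hk1, hk2⟩, Finset.mem_filter.2 ⟨hr, hk3⟩⟩
  have h1 : S.card ≤ N + ∑ h ∈ Finset.Icc 1 K,
      (S.filter fun r : ℕ => ∃ e : ℤ, |(h : ℝ) * Real.sqrt r - e| < η).card := by
    refine (Finset.card_le_card hsub).trans ((Finset.card_union_le _ _).trans ?_)
    rw [Finset.card_range]
    exact Nat.add_le_add_left Finset.card_biUnion_le _
  have h2 : (S.card : ℝ) ≤ N + ∑ h ∈ Finset.Icc 1 K,
      ((S.filter fun r : ℕ => ∃ e : ℤ, |(h : ℝ) * Real.sqrt r - e| < η).card : ℝ) := by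
    exact_mod_cast h1
  have h3 : ∑ h ∈ Finset.Icc 1 K,
      ((S.filter fun r : ℕ => ∃ e : ℤ, |(h : ℝ) * Real.sqrt r - e| < η).card : ℝ) ≤
      ∑ h ∈ Finset.Icc 1 K, (16 * η * R + 2 * K * Real.sqrt R) := by
    refine Finset.sum_le_sum fun h hh => ?_
    obtain ⟨hh1, hh2⟩ := Finset.mem_Icc.1 hh
    have h4 := near_count hh1 hη0 hη1 (R := R)
      (S := S.filter fun r : ℕ => ∃ e : ℤ, |(h : ℝ) * Real.sqrt r - e| < η)
      (fun r hr => ⟨(hS r (Finset.mem_filter.1 hr).1).1, hSR r (Finset.mem_filter.1 hr).1⟩)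
      (fun r hr => (Finset.mem_filter.1 hr).2)
    have h5 : (h : ℝ) ≤ K := by exact_mod_cast hh2
    have h6 : 2 * (h : ℝ) * Real.sqrt R ≤ 2 * K * Real.sqrt R :=
      mul_le_mul_of_nonneg_right (by linarith) hT0
    linarith
  rw [Finset.sum_const, Nat.card_Icc, Nat.add_sub_cancel, nsmul_eq_mul] at h3
  have h6 : (K : ℝ) * (16 * η * R) ≤ ε / 4 * R := by
    have h7 : (K : ℝ) * (16 * η) ≤ ε / 4 := by nlinarith
    have h8 := mul_le_mul_of_nonneg_right h7 (Nat.cast_nonneg (α := ℝ) R)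
    linarith
  have h7 : 0 ≤ ε * (R : ℝ) := by positivity
  nlinarith

end Pool.Agent.L0h10.FP
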